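import Pool.Agent.PCS.Stmts

/-!
Squad PCS, row TRE: from the tower to the setting.
-/

open scoped Pointwise

namespace Pool.Agent.PCS.H6

open Pool.Agent.H50.CIG Pool.Agent.PCS

section

variable {G : ℕ → Type} {X : ℕ → Type} [∀ n, Group (G n)] [∀ n, MulAction (G n) (X n)]
  (sec : ∀ n, G n → X n → G (n + 1))

/-- the section at the vertex `v` -/
def sv (g : G 0) (v : Vt X) : G v.1 := (st sec v.1 g v.2).2

theorem isSec_par {m : ℕ} (h : G m) (g : G 0) (v : Vt X) (hv : 0 < v.1)
    (hs : IsSec sec h v.1 (sv sec g v)) : IsSec sec h (parV v).1 (sv sec g (parV v)) := by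
  obtain ⟨n, w⟩ := v
  cases n with
  | zero => exact absurd hv (lt_irrefl 0)
  | succ n => exact IsSec.step n (st sec n g w.1).2 w.2 hs

theorem lv_iter (k : ℕ) (w : Vt X) : (parV^[k] w).1 = w.1 - k := by
  induction k with
  | zero => rfl
  | succ k ih =>
    rw [Function.iterate_succ_apply']
    have h1 : ∀ v : Vt X, (parV v).1 = v.1 - 1 := by
      rintro ⟨n, w⟩
      cases n with
      | zero => rfl
      | succ n => rfl
    rw [h1, ih]
    omega

theorem isSec_iter (g : G 0) (k : ℕ) (w : Vt X) (hk : k ≤ w.1) :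
    IsSec sec (sv sec g w) (parV^[k] w).1 (sv sec g (parV^[k] w)) := by
  induction k with
  | zero => exact IsSec.refl
  | succ k ih =>
    have h1 := ih (by omega)
    rw [Function.iterate_succ_apply']
    refine isSec_par sec _ g _ ?_ h1
    rw [lv_iter]
    omega

theorem eq_below (g g' : G 0) (k : ℕ) : ∀ (w w' : Vt X), parV^[k] w' = w →
    st sec w.1 g w.2 = st sec w.1 g' w.2 → st sec w'.1 g w'.2 = st sec w'.1 g' w'.2 := by
  induction k with
  | zero =>
    intro w w' h
    rw [Function.iterate_zero, id] at h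
    rw [h]
    exact id
  | succ k ih =>
    intro w w' h hw
    rw [Function.iterate_succ_apply] at h
    have h1 := ih w (parV w') h hw
    obtain ⟨n, z⟩ := w'
    cases n with
    | zero => exact h1
    | succ n =>
      have h2 : st sec n g z.1 = st sec n g' z.1 := h1
      show (((st sec n g z.1).1, (st sec n g z.1).2 • z.2), sec n (st sec n g z.1).2 z.2) =
        (((st sec n g' z.1).1, (st sec n g' z.1).2 • z.2), sec n (st sec n g' z.1).2 z.2)
      rw [h2]

theorem ex_vertex (g : G 0) {m : ℕ} (h : G m) (n : ℕ) (k : G n) (hs : IsSec sec h n k) :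
    ∀ w : W X n, (st sec n g w).2 = k → ∃ w' : W X m, (st sec m g w').2 = h := by
  induction hs with
  | refl => exact fun w hw => ⟨w, hw⟩
  | step n k x _ ih =>
    intro w hw
    refine ih (w, x) ?_
    show sec n (st sec n g w).2 x = _
    rw [hw]

end

/-- **TRE**. -/
theorem tre (hBIN : BinStmt) (hCON : ConStmt) : TreStmt := by
  intro G _ _ X _ _ sec A d q K R hsec hne hcard hA h1A hcontr S hS hker hinf hnci
  let act0 : MulAction (G 0) (Vt X) := actV sec hsec
  have hsm : ∀ (g : G 0) (v : Vt X), g • v = ⟨v.1, (st sec v.1 g v.2).1⟩ := fun _ _ => rfl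
  obtain ⟨hb1, hb2, hb3, hb4, hb5⟩ := hBIN G X sec A R hsec h1A
  -- enumeration of the letters
  have hf : ∃ f : ∀ n, ℕ → X n, ∀ n (x : X n), ∃ i < d, f n i = x := by
    have h : ∀ n, ∃ f : ℕ → X n, ∀ x : X n, ∃ i < d, f i = x := by
      intro n
      have := hne n
      refine ⟨fun i => if hi : i < Nat.card (X n) then (Finite.equivFin (X n)).symm ⟨i, hi⟩
        else Classical.arbitrary _, fun x => ?_⟩
      refine ⟨(Finite.equivFin (X n) x : ℕ), lt_of_lt_of_le (Fin.is_lt _) (hcard n), ?_⟩
      simp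
    choose f hf using h
    exact ⟨f, hf⟩
  obtain ⟨f, hf⟩ := hf
  have hfinS : {s : Subgroup.closure (S : Set (G 0)) | (s : G 0) ∈ S ∪ S⁻¹ ∪ {1}}.Finite := by
    refine Set.Finite.of_finite_image (f := Subtype.val) ?_ Subtype.val_injective.injOn
    refine Set.Finite.subset (S ∪ S⁻¹ ∪ {1}).finite_toSet ?_
    rintro _ ⟨s, hs, rfl⟩
    exact hs
  have hS' : ∀ s : Subgroup.closure (S : Set (G 0)), s ∈ hfinS.toFinset ↔
      (s : G 0) ∈ S ∪ S⁻¹ ∪ {1} := by
    intro s
    rw [Set.Finite.mem_toFinset]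
    exact Iff.rfl
  have hsp : ∀ s : Subgroup.closure (S : Set (G 0)), s ∈ hfinS.toFinset →
      (¬ HasBinary sec A R 0 (s : G 0)) ∨ (s : G 0) = 1 := by
    intro s hs
    rw [hS', Finset.mem_union, Finset.mem_singleton] at hs
    rcases hs with hs | hs
    · exact Or.inl (hS _ hs)
    · exact Or.inr hs
  have hq : 0 < q := by
    have h1 : 0 < (A 0).ncard := (Set.ncard_pos (hA 0).1).mpr ⟨1, h1A 0⟩
    exact lt_of_lt_of_le h1 (hA 0).2
  refine ⟨Vt X, inferInstance, (treeV sec hsec d f hf).restr _, hfinS.toFinset,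
    fun s v => rkV sec A R (s : G 0) v, ?_, hS'⟩
  refine
    { inf := hinf
      one_mem := ?_
      inv_mem := ?_
      gen := ?_
      ker := ?_
      rank := ?_
      con := ?_
      nci := hnci }
  · rw [hS']
    simp
  · intro s hs
    rw [hS'] at hs ⊢
    rw [Finset.mem_union, Finset.mem_union, Finset.mem_singleton] at hs ⊢
    rcases hs with (hs | hs) | hs
    · refine Or.inl (Or.inr ?_)
      rw [Finset.mem_inv']
      simpa using hs
    · refine Or.inl (Or.inl ?_)
      rw [Finset.mem_inv'] at hs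
      simpa using hs
    · refine Or.inr ?_
      simpa using hs
  · rw [eq_top_iff, ← Subgroup.closure_closure_coe_preimage]
    refine Subgroup.closure_mono ?_
    intro s hs
    have h1 : (s : G 0) ∈ S := hs
    show s ∈ hfinS.toFinset
    rw [hS', Finset.mem_union, Finset.mem_union]
    exact Or.inl (Or.inl h1)
  · refine Set.Finite.of_finite_image (f := Subtype.val) ?_ Subtype.val_injective.injOn
    refine Set.Finite.subset hker ?_
    rintro _ ⟨g, hg, rfl⟩
    refine ⟨g.2, ?_⟩
    intro m h hh x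
    obtain ⟨w, hw⟩ := ex_vertex sec (g : G 0) h 0 (g : G 0) hh () rfl
    have h1 : (⟨m + 1, (st sec (m + 1) (g : G 0) (w, x)).1⟩ : (n : ℕ) × W X n) =
      ⟨m + 1, (w, x)⟩ := hg (⟨m + 1, (w, x)⟩ : (n : ℕ) × W X n)
    have h2 := eq_of_heq (Sigma.mk.inj h1).2
    have h3 : (st sec m (g : G 0) w).2 • x = x := (Prod.mk.inj h2).2
    rw [hw] at h3
    exact h3
  · refine
      { le := fun s _ v => hb1 s v
        mono := fun s _ v hv => hb3 s v hv
        uniq := ?_
        one := fun v => hb2 v }
    intro s hs v w hv hw hp h1 h2 h3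
    rcases hsp s hs with hs | hs
    · exact hb4 s hs v w hv hw hp h1 h2 h3
    · exfalso
      have h4 : 1 ≤ rkV sec A R (s : G 0) (parV v) := h1
      rw [hs, hb2] at h4
      omega
  · intro j w hj
    have hj' : K * j ≤ w.1 := hj
    -- sections of elements of `Dn`
    have hDn : ∀ (r : ℕ) (u : Vt X) (g : Subgroup.closure (S : Set (G 0))),
        g ∈ Dn hfinS.toFinset
          (fun (s : Subgroup.closure (S : Set (G 0))) v => rkV sec A R (s : G 0) v) r u →
        sv sec (g : G 0) u ∈ A u.1 ^ r := by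
      intro r
      induction r with
      | zero =>
        intro u g hg
        have h1 : g = 1 := hg
        rw [h1, pow_zero]
        show (st sec u.1 (1 : G 0) u.2).2 ∈ (1 : Set (G u.1))
        rw [st_one sec hsec]
        rfl
      | succ r ih =>
        rintro u g ⟨s, hs, h, hh, hrk, rfl⟩
        have h1 := ih u h hh
        rw [pow_succ']
        show (st sec u.1 ((s : G 0) * (h : G 0)) u.2).2 ∈ A u.1 * A u.1 ^ r
        rw [st_mul sec hsec]
        refine Set.mul_mem_mul ?_ h1
        have h2 : rkV sec A R (s : G 0) ((h : G 0) • u) = 0 := hrk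
        rcases hsp s hs with hs | hs
        · exact (hb5 s hs _ h2).1
        · rw [hs, st_one sec hsec]
          exact h1A _
    have hsecA : ∀ g : Subgroup.closure (S : Set (G 0)), g ∈ Dn hfinS.toFinset
        (fun (s : Subgroup.closure (S : Set (G 0))) v => rkV sec A R (s : G 0) v) (2 ^ j)
        (parV^[K * j] w) → sv sec (g : G 0) w ∈ A w.1 := by
      intro g hg
      refine hCON G X sec A K hsec hcontr j (parV^[K * j] w).1 _ (hDn _ _ g hg) w.1 _ ?_
        (isSec_iter sec (g : G 0) (K * j) w hj')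
      rw [lv_iter]
      omega
    have : Finite (A w.1) := (hA w.1).1
    have hcA : Nat.card (A w.1) ≤ q := (hA w.1).2
    classical
    refine ⟨fun g => if hg : sv sec (g : G 0) w ∈ A w.1 then
      Fin.castLE hcA (Finite.equivFin (A w.1) ⟨sv sec (g : G 0) w, hg⟩) else ⟨0, hq⟩, ?_⟩
    intro g hg g' hg' hw hγ
    have h1 := hsecA g hg
    have h2 := hsecA g' hg'
    have hγ' : Fin.castLE hcA (Finite.equivFin (A w.1) ⟨sv sec (g : G 0) w, h1⟩) =
        Fin.castLE hcA (Finite.equivFin (A w.1) ⟨sv sec (g' : G 0) w, h2⟩) := by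
      have h3 := hγ
      beta_reduce at h3
      rw [dif_pos h1, dif_pos h2] at h3
      exact h3
    have h3 : sv sec (g : G 0) w = sv sec (g' : G 0) w := by
      have h4 := (Finite.equivFin (A w.1)).injective (Fin.castLE_injective hcA hγ')
      exact congrArg Subtype.val h4
    have h4 : (st sec w.1 (g : G 0) w.2).1 = (st sec w.1 (g' : G 0) w.2).1 := by
      have h5 : (g : G 0) • w = (g' : G 0) • w := hw
      rw [hsm, hsm] at h5
      exact eq_of_heq (Sigma.mk.inj h5).2
    have h5 : st sec w.1 (g : G 0) w.2 = st sec w.1 (g' : G 0) w.2 := Prod.ext h4 h3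
    intro k w' hk
    have h6 : parV^[k] w' = w := hk
    have h7 := eq_below sec (g : G 0) (g' : G 0) k w w' h6 h5
    have h8 : (g : G 0) • w' = (g' : G 0) • w' := by
      rw [hsm, hsm, h7]
    show (g⁻¹ * g') • w' = w'
    rw [mul_smul, inv_smul_eq_iff]
    exact h8.symm

end Pool.Agent.PCS.H6
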